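import Mathlib

set_option autoImplicit false

namespace Pool.Agent.Results.MP_30394b_an.StrongAlg

/-- `b` is infinitely differentiable on the interval from 0 to 1 (one-sided derivatives at the end
points) and its Taylor series has radius of convergence 0 at every point of the interval -/
def PS {K : Type} [RCLike K] (b : C(unitInterval, K)) : Prop :=
  ContDiffOn ℝ (⊤ : ℕ∞) (Set.IccExtend zero_le_one b) (Set.Icc 0 1) ∧
    ∀ x ∈ Set.Icc (0 : ℝ) 1, Filter.limsup (fun n : ℕ => ENNReal.ofReal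
      ((‖iteratedDerivWithin n (Set.IccExtend zero_le_one b) (Set.Icc 0 1) x‖ / n.factorial) ^
        (1 / (n : ℝ)))) Filter.atTop = ⊤

noncomputable section

open Set Filter Topology Asymptotics

def SmAt (u : ℝ → ℝ) (x : ℝ) : Prop := ∀ n : ℕ, ContDiffAt ℝ n u x

def Flat (u : ℝ → ℝ) (x : ℝ) : Prop := ∀ n : ℕ, u =O[𝓝[≠] x] fun y => (y - x) ^ n

def Conv (u : ℝ → ℝ) (x : ℝ) : Prop := ∃ H, AnalyticAt ℝ H x ∧ Flat (fun y => u y - H y) x

def Bd (u : ℝ → ℝ) (x : ℝ) : Prop :=
  ∃ C r : ℝ, 0 < r ∧ ∀ n : ℕ, |iteratedDeriv n u x / n.factorial| ≤ C * r ^ n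

lemma smAt_of_an {u : ℝ → ℝ} {x : ℝ} (h : AnalyticAt ℝ u x) : SmAt u x := fun _ => h.contDiffAt

lemma taylorAt {u : ℝ → ℝ} {x : ℝ} (hu : SmAt u x) (m : ℕ)
    (h : ∀ k < m, iteratedDeriv k u x = 0) :
    (fun y => u y - iteratedDeriv m u x / m.factorial * (y - x) ^ m) =o[𝓝[≠] x]
      fun y => (y - x) ^ m := by
  obtain ⟨s, hs, hc⟩ := (hu m).contDiffOn le_rfl (by simp)
  obtain ⟨e, he, hb⟩ := Metric.mem_nhds_iff.1 hs
  have h1 := taylor_isLittleO (convex_ball x e) (Metric.mem_ball_self he) (hc.mono hb)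
  rw [Metric.isOpen_ball.nhdsWithin_eq (Metric.mem_ball_self he)] at h1
  refine (h1.mono nhdsWithin_le_nhds).congr_left fun y => ?_
  rw [taylor_within_apply, Finset.sum_range_succ, Finset.sum_eq_zero]
  · rw [iteratedDerivWithin_of_isOpen Metric.isOpen_ball (Metric.mem_ball_self he)]
    simp only [smul_eq_mul]; ring
  · intro k hk
    rw [iteratedDerivWithin_of_isOpen Metric.isOpen_ball (Metric.mem_ball_self he),
      h k (Finset.mem_range.1 hk), smul_zero]

lemma flat_of_zero {u : ℝ → ℝ} {x : ℝ} (hu : SmAt u x) (h : ∀ k, iteratedDeriv k u x = 0) :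
    Flat u x := fun n => by
  simpa [h n] using (taylorAt hu n fun k _ => h k).isBigO

lemma pow_o (x : ℝ) {m n : ℕ} (h : m < n) :
    (fun y => (y - x) ^ n) =o[𝓝[≠] x] fun y => (y - x) ^ m := by
  have h1 : Tendsto (fun y => y - x) (𝓝[≠] x) (𝓝 0) := by
    have : Tendsto (fun y => y - x) (𝓝 x) (𝓝 (x - x)) := (continuous_id.sub continuous_const).tendsto x
    rw [sub_self] at this
    exact this.mono_left nhdsWithin_le_nhds
  exact (isLittleO_pow_pow h).comp_tendsto h1

lemma zero_of_O {u : ℝ → ℝ} {x : ℝ} (hu : SmAt u x) {N : ℕ}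
    (h : u =O[𝓝[≠] x] fun y => (y - x) ^ N) : ∀ k < N, iteratedDeriv k u x = 0 := by
  intro k
  induction k using Nat.strong_induction_on with
  | _ k ih =>
    intro hk
    have h1 := taylorAt hu k fun j hj => ih j hj (hj.trans hk)
    have h2 := (h.trans_isLittleO (pow_o x hk)).sub h1
    simp only [sub_sub_cancel] at h2
    by_contra hne
    have hc : iteratedDeriv k u x / k.factorial ≠ 0 :=
      div_ne_zero hne (by exact_mod_cast k.factorial_ne_zero)
    have h3 := (isLittleO_const_mul_left_iff hc).1 h2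
    refine isLittleO_irrefl' (Eventually.frequently ?_) h3
    filter_upwards [self_mem_nhdsWithin] with y hy
    exact norm_ne_zero_iff.2 (pow_ne_zero _ (sub_ne_zero.2 hy))

lemma bd_of_conv {u : ℝ → ℝ} {x : ℝ} (hu : SmAt u x) (h : Conv u x) : Bd u x := by
  obtain ⟨H, hH, hf⟩ := h
  obtain ⟨C, r, -, hr, hb⟩ := FormalMultilinearSeries.le_mul_pow_of_radius_pos _
    hH.hasFPowerSeriesAt.radius_pos
  refine ⟨C, r, hr, fun n => ?_⟩
  have h1 := zero_of_O (u := u - H) (fun n => (hu n).sub hH.contDiffAt) (hf (n + 1)) n (by omega)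
  rw [iteratedDeriv_sub (hu n) hH.contDiffAt, sub_eq_zero] at h1
  have := hb n
  rwa [FormalMultilinearSeries.ofScalars_norm, ← h1] at this

lemma conv_of_bd {u : ℝ → ℝ} {x : ℝ} (hu : SmAt u x) (h : Bd u x) : Conv u x := by
  obtain ⟨C, r, hr, hb⟩ := h
  let p := FormalMultilinearSeries.ofScalars ℝ
    (fun n : ℕ => iteratedDeriv n u x / (n.factorial : ℝ))
  have hp : 0 < p.radius := by
    refine lt_of_lt_of_le ?_ (p.le_radius_of_bound C (r := ⟨r⁻¹, by positivity⟩) fun n => ?_)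
    · exact ENNReal.coe_pos.2 (show (0 : ℝ) < r⁻¹ by positivity)
    · rw [FormalMultilinearSeries.ofScalars_norm]
      show _ * r⁻¹ ^ n ≤ C
      rw [inv_pow, ← div_eq_mul_inv, div_le_iff₀ (by positivity)]
      exact hb n
  have h1 := (p.hasFPowerSeriesOnBall hp).hasFPowerSeriesAt.comp_sub x
  rw [zero_add] at h1
  have h2 := FormalMultilinearSeries.ofScalars_series_injective ℝ ℝ
    (h1.eq_formalMultilinearSeries h1.analyticAt.hasFPowerSeriesAt)
  refine ⟨_, h1.analyticAt, flat_of_zero (u := u - fun z => p.sum (z - x))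
    (fun n => (hu n).sub h1.analyticAt.contDiffAt) fun n => ?_⟩
  rw [iteratedDeriv_sub (hu n) h1.analyticAt.contDiffAt, sub_eq_zero]
  have := congrFun h2 n
  exact (div_left_inj' (by exact_mod_cast n.factorial_ne_zero)).1 this

lemma lip {R A B : ℝ → ℝ} {y : ℝ} {l : Filter ℝ} (hR : AnalyticAt ℝ R y) (hA : Tendsto A l (𝓝 y))
    (hB : Tendsto B l (𝓝 y)) : (fun t => R (A t) - R (B t)) =O[l] fun t => A t - B t :=
  hR.hasStrictFDerivAt.isBigO_sub.comp_tendsto (hA.prodMk_nhds hB)

lemma Flat.tendsto {u : ℝ → ℝ} {x : ℝ} (h : Flat u x) : Tendsto u (𝓝[≠] x) (𝓝 0) := by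
  have := (h 1).trans_isLittleO (pow_o x zero_lt_one)
  simpa using this

/-- the positive real root -/
def rt (k : ℕ) (s : ℝ) : ℝ := Real.exp (Real.log s / k)

lemma rt_an (k : ℕ) {s : ℝ} (hs : 0 < s) : AnalyticAt ℝ (rt k) s := by
  have h1 : AnalyticAt ℝ (fun s => Real.log s / k) s := by
    simp only [div_eq_mul_inv]
    exact (analyticAt_log hs).mul analyticAt_const
  exact h1.rexp'

lemma rt_pow {k : ℕ} (hk : k ≠ 0) {s : ℝ} (hs : 0 < s) : rt k s ^ k = s := by
  rw [rt, ← Real.exp_nat_mul, mul_div_cancel₀ _ (by exact_mod_cast hk), Real.exp_log hs]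

lemma pow_rt {k : ℕ} (hk : k ≠ 0) {s : ℝ} (hs : 0 < s) : rt k (s ^ k) = s := by
  rw [rt, Real.log_pow, mul_div_cancel_left₀ _ (by exact_mod_cast hk), Real.exp_log hs]

lemma conv_root {w : ℝ → ℝ} {x : ℝ} (hw : SmAt w x) {k : ℕ} (hk : k ≠ 0)
    (h : Conv (fun y => w y ^ k) x) : Conv w x := by
  classical
  by_cases hz : ∀ n, iteratedDeriv n w x = 0
  · exact ⟨fun _ => 0, analyticAt_const, by simpa using flat_of_zero hw hz⟩
  push Not at hz
  obtain ⟨m, a, ha, ho⟩ : ∃ m a, a ≠ 0 ∧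
      (fun y => w y - a * (y - x) ^ m) =o[𝓝[≠] x] fun y => (y - x) ^ m :=
    ⟨Nat.find hz, _, div_ne_zero (Nat.find_spec hz) (by exact_mod_cast Nat.factorial_ne_zero _),
      taylorAt hw _ fun j hj => by simpa using Nat.find_min hz hj⟩
  obtain ⟨H, hH, hf⟩ := h
  have ne : ∀ᶠ y in 𝓝[≠] x, y - x ≠ 0 := by
    filter_upwards [self_mem_nhdsWithin] with y hy using sub_ne_zero.2 hy
  have hv : Tendsto (fun y => w y / (a * (y - x) ^ m)) (𝓝[≠] x) (𝓝 1) := by
    have h1 := (ho.tendsto_div_nhds_zero.div_const a).add_const 1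
    rw [zero_div, zero_add] at h1
    refine h1.congr' ?_
    filter_upwards [ne] with y hy
    field_simp; ring
  have wO : w =O[𝓝[≠] x] fun y => (y - x) ^ m := by
    have := ho.isBigO.add ((isBigO_refl (fun y => (y - x) ^ m) _).const_mul_left a)
    simpa using this
  have HO : H =O[𝓝[≠] x] fun y => (y - x) ^ (m * k) := by
    have h1 := (wO.pow k).sub ((hf (m * k)).congr_right fun y => pow_mul _ _ _)
    simpa [pow_mul] using h1
  obtain ⟨U, hU, hHU⟩ := (natCast_le_analyticOrderAt hH).1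
    ((natCast_le_analyticOrderAt_iff_iteratedDeriv_eq_zero hH).2 (zero_of_O (smAt_of_an hH) HO))
  have key : ∀ n : ℕ, (fun y => (w y / (a * (y - x) ^ m)) ^ k - U y / a ^ k) =O[𝓝[≠] x]
      fun y => (y - x) ^ n := by
    intro n
    have h1 := ((hf (n + m * k)).mul (isBigO_refl (fun y => ((y - x) ^ (m * k))⁻¹) _)).const_mul_left
      (a ^ k)⁻¹
    refine h1.congr' ?_ ?_
    · filter_upwards [ne, hHU.filter_mono nhdsWithin_le_nhds] with y hy hy'
      rw [hy', smul_eq_mul, div_pow, mul_pow, ← pow_mul]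
      field_simp
    · filter_upwards [ne] with y hy
      rw [pow_add]; field_simp
  have hvk : Tendsto (fun y => (w y / (a * (y - x) ^ m)) ^ k) (𝓝[≠] x) (𝓝 1) := by
    simpa using hv.pow k
  have hUk : Tendsto (fun y => U y / a ^ k) (𝓝[≠] x) (𝓝 1) := by
    have := hvk.sub (Flat.tendsto key)
    simpa using this
  have hU1 : U x / a ^ k = 1 :=
    tendsto_nhds_unique ((hU.continuousAt.tendsto.div_const _).mono_left nhdsWithin_le_nhds) hUk
  refine ⟨fun y => a * (y - x) ^ m * rt k (U y / a ^ k), ?_, fun n => ?_⟩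
  · refine (analyticAt_const.mul ((analyticAt_id.sub analyticAt_const).pow m)).mul ?_
    have h1 : AnalyticAt ℝ (fun y => U y / a ^ k) x := by
      simp only [div_eq_mul_inv]; exact hU.mul analyticAt_const
    exact AnalyticAt.comp (f := fun y => U y / a ^ k) (by rw [hU1]; exact rt_an k one_pos) h1
  · have h1 := (lip (rt_an k one_pos) hvk hUk).trans (key n)
    have h2 : (fun y => a * (y - x) ^ m) =O[𝓝[≠] x] fun _ => (1 : ℝ) := by
      have : ContinuousAt (fun y => a * (y - x) ^ m) x := by fun_prop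
      exact (this.tendsto.mono_left nhdsWithin_le_nhds).isBigO_one ℝ
    refine (h2.mul h1).congr' ?_ (Eventually.of_forall fun y => one_mul _)
    filter_upwards [ne, hv.eventually (lt_mem_nhds one_pos)] with y hy hy'
    rw [pow_rt hk hy']
    field_simp

lemma conv_comp {f g : ℝ → ℝ} {x : ℝ} (hf : SmAt f x) (hg : ∀ y, AnalyticAt ℝ g y)
    (hc : ¬ ∀ y, g y = g 0) (h : Conv (fun y => g (f y)) x) : Conv f x := by
  have h1 : AnalyticAt ℝ (fun y => g y - g (f x)) (f x) := (hg _).sub analyticAt_const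
  have h2 : ¬ ∀ᶠ y in 𝓝 (f x), g y - g (f x) = 0 := by
    intro he
    have h3 : AnalyticOnNhd ℝ (fun y => g y - g (f x)) univ := fun y _ => (hg y).sub analyticAt_const
    have := h3.eqOn_zero_of_preconnected_of_eventuallyEq_zero isPreconnected_univ (mem_univ (f x)) he
    apply hc
    intro y
    have a1 := this (mem_univ y)
    have a2 := this (mem_univ 0)
    simp only [Pi.zero_apply] at a1 a2
    linarith
  obtain ⟨k, u, hu, hu0, hgu⟩ := h1.exists_eventuallyEq_pow_smul_nonzero_iff.2 h2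
  have hk : k ≠ 0 := by
    rintro rfl
    have := hgu.self_of_nhds
    simp only [sub_self, pow_zero, one_smul] at this
    exact hu0 this.symm
  have hu1 : AnalyticAt ℝ (fun y => u y / u (f x)) (f x) := by
    simp only [div_eq_mul_inv]; exact hu.mul analyticAt_const
  have hr : AnalyticAt ℝ (fun y => rt k (u y / u (f x))) (f x) :=
    AnalyticAt.comp (g := rt k) (f := fun y => u y / u (f x)) (by rw [div_self hu0]; exact rt_an k one_pos) hu1
  let p : ℝ → ℝ := fun y => (y - f x) * rt k (u y / u (f x))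
  have hp : AnalyticAt ℝ p (f x) := (analyticAt_id.sub analyticAt_const).mul hr
  have hp' : deriv p (f x) ≠ 0 := by
    have := ((hasDerivAt_id (f x)).sub_const (f x)).mul hr.differentiableAt.hasDerivAt
    have e : deriv p (f x) = _ := this.deriv
    rw [e]
    simp [rt]
  have fc : Tendsto f (𝓝 x) (𝓝 (f x)) := (hf 0).continuousAt.tendsto
  have hw : SmAt (fun y => p (f y)) x := fun n => hp.contDiffAt.comp x (hf n)
  have hwk : Conv (fun y => p (f y) ^ k) x := by
    obtain ⟨H, hH, hfl⟩ := h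
    refine ⟨fun y => (u (f x))⁻¹ * (H y - g (f x)),
      analyticAt_const.mul (hH.sub analyticAt_const), fun n => ?_⟩
    refine ((hfl n).const_mul_left (u (f x))⁻¹).congr' ?_ EventuallyEq.rfl
    have hpos : ∀ᶠ y in 𝓝 (f x), 0 < u y / u (f x) :=
      hu1.continuousAt.tendsto.eventually (lt_mem_nhds (by rw [div_self hu0]; exact one_pos))
    filter_upwards [(fc.eventually (hgu.and hpos)).filter_mono nhdsWithin_le_nhds] with y hy
    simp only [p]
    rw [mul_pow, rt_pow hk hy.2]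
    have := hy.1
    rw [smul_eq_mul] at this
    have e : g (f y) = (f y - f x) ^ k * u (f y) + g (f x) := by linarith
    rw [e]; field_simp; ring
  obtain ⟨W, hW, hfl⟩ := conv_root hw hk hwk
  have t1 : Tendsto (fun y => p (f y)) (𝓝[≠] x) (𝓝 (p (f x))) :=
    (hw 0).continuousAt.tendsto.mono_left nhdsWithin_le_nhds
  have t2 : Tendsto W (𝓝[≠] x) (𝓝 (p (f x))) := by simpa using t1.sub hfl.tendsto
  have hWx : W x = p (f x) :=
    tendsto_nhds_unique (hW.continuousAt.tendsto.mono_left nhdsWithin_le_nhds) t2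
  have hq := hp.analyticAt_localInverse hp'
  refine ⟨fun y => hp.hasStrictDerivAt.localInverse _ _ _ hp' (W y),
    AnalyticAt.comp (f := W) (by rw [hWx]; exact hq) hW, fun n => ?_⟩
  refine ((lip hq t1 t2).trans (hfl n)).congr' ?_ EventuallyEq.rfl
  filter_upwards [(fc.eventually (hp.hasStrictDerivAt.eventually_left_inverse hp')).filter_mono
    nhdsWithin_le_nhds] with y hy
  rw [hy]

lemma exb : ∃ b : ℕ → ℝ, ∀ n : ℕ, 1 ≤ b n ∧
    2 ^ (n + 1) * (∑ j ∈ Finset.range n, b j ^ (2 * n + 2) + 2 +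
      ((2 * n + 2).factorial : ℝ) * (n + 1) ^ (2 * n + 2)) ≤ b n := by
  let T : ℕ → ℝ := fun n => ((2 * n + 2).factorial : ℝ) * (n + 1) ^ (2 * n + 2)
  let B : ℕ → ℝ := fun n => Nat.rec (2 * (2 + T 0))
    (fun n c => 2 ^ (n + 2) * ((n + 1) * c ^ (2 * n + 4) + 2 + T (n + 1)) + c) n
  have hT : ∀ n, 0 ≤ T n := fun n => by positivity
  have B0 : B 0 = 2 * (2 + T 0) := rfl
  have B1 : ∀ n, B (n + 1) =
    2 ^ (n + 2) * ((n + 1) * B n ^ (2 * n + 4) + 2 + T (n + 1)) + B n := fun n => rfl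
  have h1 : ∀ n, 1 ≤ B n := by
    intro n
    induction n with
    | zero => rw [B0]; linarith [hT 0]
    | succ n ih =>
      rw [B1]
      have := hT (n + 1)
      have : 0 ≤ (2 : ℝ) ^ (n + 2) * ((n + 1) * B n ^ (2 * n + 4) + 2 + T (n + 1)) := by positivity
      linarith
  have hm : Monotone B := monotone_nat_of_le_succ fun n => by
    rw [B1]
    have := hT (n + 1)
    have := h1 n
    have : 0 ≤ (2 : ℝ) ^ (n + 2) * ((n + 1) * B n ^ (2 * n + 4) + 2 + T (n + 1)) := by positivity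
    linarith
  refine ⟨B, fun n => ⟨h1 n, ?_⟩⟩
  cases n with
  | zero => rw [B0]; simp [T]
  | succ n =>
    rw [B1]
    have : ∑ j ∈ Finset.range (n + 1), B j ^ (2 * (n + 1) + 2) ≤ (n + 1) * B n ^ (2 * n + 4) := by
      have := Finset.sum_le_card_nsmul (Finset.range (n + 1)) (fun j => B j ^ (2 * (n + 1) + 2))
        (B n ^ (2 * n + 4)) fun j hj => pow_le_pow_left₀ (by linarith [h1 j])
          (hm (Nat.lt_succ_iff.1 (Finset.mem_range.1 hj))) _
      simpa using this
    have h2 := h1 n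
    have h3 : (2 : ℝ) ^ (n + 1 + 1) * (∑ j ∈ Finset.range (n + 1), B j ^ (2 * (n + 1) + 2) + 2 +
      T (n + 1)) ≤ 2 ^ (n + 2) * ((n + 1) * B n ^ (2 * n + 4) + 2 + T (n + 1)) :=
      mul_le_mul_of_nonneg_left (by linarith) (by positivity)
    simp only [T] at h3 ⊢
    linarith

lemma exf : ∃ f : ℝ → ℝ, ContDiff ℝ (⊤ : ℕ∞) f ∧ ∀ x, ¬ Bd f x := by
  obtain ⟨b, hb⟩ := exb
  have bp : ∀ j, 0 < b j := fun j => by linarith [(hb j).1]
  let c : ℕ → ℕ → ℝ := fun k j => (1 / 2) ^ j * (b j ^ k / b j ^ (2 * j))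
  let t : ℕ → ℕ → ℝ → ℝ := fun k j x => c k j * Real.cos (b j * x + k * (Real.pi / 2))
  have cp : ∀ k j, 0 ≤ c k j := fun k j => by have := bp j; positivity
  have c1 : ∀ k j, k ≤ 2 * j → c k j ≤ (1 / 2) ^ j := fun k j h =>
    mul_le_of_le_one_right (by positivity)
      (div_le_one_of_le₀ (pow_le_pow_right₀ (hb j).1 h) (pow_pos (bp j) _).le)
  have tb : ∀ k j x, ‖t k j x‖ ≤ c k j := fun k j x => by
    rw [Real.norm_eq_abs, abs_mul, abs_of_nonneg (cp k j)]
    exact mul_le_of_le_one_right (cp k j) (Real.abs_cos_le_one _)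
  have cs : ∀ k, Summable (c k) := fun k =>
    Summable.of_norm_bounded_eventually_nat summable_geometric_two (by
      filter_upwards [eventually_ge_atTop k] with j hj
      rw [Real.norm_eq_abs, abs_of_nonneg (cp k j)]
      exact c1 k j (by omega))
  have ts : ∀ k x, Summable fun j => t k j x := fun k x =>
    Summable.of_norm_bounded (cs k) fun j => tb k j x
  have td : ∀ k j x, HasDerivAt (t k j) (t (k + 1) j x) x := fun k j x => by
    have h1 : HasDerivAt (fun x => b j * x + k * (Real.pi / 2)) (b j * 1) x :=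
      ((hasDerivAt_id x).const_mul (b j)).add_const _
    refine (h1.cos.const_mul (c k j)).congr_deriv ?_
    simp only [t, c]
    rw [show b j * x + ((k + 1 : ℕ) : ℝ) * (Real.pi / 2) =
      b j * x + k * (Real.pi / 2) + Real.pi / 2 by push_cast; ring, Real.cos_add_pi_div_two]
    ring
  let D : ℕ → ℝ → ℝ := fun k x => ∑' j, t k j x
  have Dd : ∀ k x, HasDerivAt (D k) (D (k + 1) x) x := fun k x =>
    hasDerivAt_tsum (cs (k + 1)) (td k) (tb (k + 1)) (ts k 0) x
  have Di : ∀ k, iteratedDeriv k (D 0) = D k := by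
    intro k
    induction k with
    | zero => rfl
    | succ k ih => rw [iteratedDeriv_succ, ih]; exact funext fun x => (Dd k x).deriv
  refine ⟨D 0, contDiff_of_differentiable_iteratedDeriv fun m _ => ?_, fun x => ?_⟩
  · rw [Di]; exact fun x => (Dd m x).differentiableAt
  rintro ⟨C, r, hr, hC⟩
  have low : ∀ n k : ℕ, 2 * n + 1 ≤ k → k ≤ 2 * n + 2 →
      1 / 2 ≤ |Real.cos (b n * x + k * (Real.pi / 2))| →
      ((2 * n + 2).factorial : ℝ) * (n + 1) ^ (2 * n + 2) ≤ |D k x| := by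
    intro n k k1 k2 hcos
    have e1 := (ts k x).sum_add_tsum_nat_add (n + 1)
    rw [Finset.sum_range_succ] at e1
    have a1 : |∑ j ∈ Finset.range n, t k j x| ≤ ∑ j ∈ Finset.range n, b j ^ (2 * n + 2) := by
      refine (Finset.abs_sum_le_sum_abs _ _).trans (Finset.sum_le_sum fun j _ => (tb k j x).trans ?_)
      have h1 : ((1 : ℝ) / 2) ^ j ≤ 1 := pow_le_one₀ (by norm_num) (by norm_num)
      have h2 : b j ^ k / b j ^ (2 * j) ≤ b j ^ (2 * n + 2) :=
        (div_le_self (pow_pos (bp j) _).le (one_le_pow₀ (hb j).1)).trans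
          (pow_le_pow_right₀ (hb j).1 k2)
      have := bp j
      exact (mul_le_of_le_one_left (by positivity) h1).trans h2
    have a2 : |∑' j, t k (j + (n + 1)) x| ≤ 2 := by
      rw [← tsum_geometric_two]
      refine tsum_of_norm_bounded summable_geometric_two.hasSum fun j => (tb k _ x).trans ?_
      exact (c1 k _ (by omega)).trans (pow_le_pow_of_le_one (by norm_num) (by norm_num) (by omega))
    have a3 : b n / 2 ^ (n + 1) ≤ |t k n x| := by
      rw [abs_mul, abs_of_nonneg (cp k n)]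
      have h1 : b n ≤ b n ^ k / b n ^ (2 * n) := by
        rw [le_div_iff₀ (pow_pos (bp n) _), ← pow_succ']
        exact pow_le_pow_right₀ (hb n).1 k1
      have h2 : (1 / 2) ^ n * b n ≤ c k n := mul_le_mul_of_nonneg_left h1 (by positivity)
      have := bp n
      calc b n / 2 ^ (n + 1) = (1 / 2) ^ n * b n * (1 / 2) := by rw [pow_succ]; field_simp; simp
        _ ≤ _ := mul_le_mul h2 hcos (by norm_num) (cp k n)
    have a4 := (le_div_iff₀' (by positivity)).2 (hb n).2
    have a5 : t k n x = D k x - ∑ j ∈ Finset.range n, t k j x - ∑' j, t k (j + (n + 1)) x := by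
      simp only [D]; linarith
    rw [a5] at a3
    have a6 := abs_sub (D k x - ∑ j ∈ Finset.range n, t k j x) (∑' j, t k (j + (n + 1)) x)
    have a7 := abs_sub (D k x) (∑ j ∈ Finset.range n, t k j x)
    linarith
  obtain ⟨n, hn⟩ := exists_nat_gt (max (C + 1) (2 * r))
  have n1 : C + 1 < n := (le_max_left _ _).trans_lt hn
  have n2 : 2 * r < n := (le_max_right _ _).trans_lt hn
  obtain ⟨k, k1, k2, hcos⟩ : ∃ k : ℕ, 2 * n + 1 ≤ k ∧ k ≤ 2 * n + 2 ∧
      1 / 2 ≤ |Real.cos (b n * x + k * (Real.pi / 2))| := by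
    by_contra H
    push Not at H
    have h1 := H (2 * n + 1) le_rfl (by omega)
    have h2 := H (2 * n + 2) (by omega) le_rfl
    rw [show b n * x + ((2 * n + 2 : ℕ) : ℝ) * (Real.pi / 2) =
      b n * x + ((2 * n + 1 : ℕ) : ℝ) * (Real.pi / 2) + Real.pi / 2 by push_cast; ring,
      Real.cos_add_pi_div_two, abs_neg] at h2
    have h3 := Real.sin_sq_add_cos_sq (b n * x + ((2 * n + 1 : ℕ) : ℝ) * (Real.pi / 2))
    rw [← sq_abs (Real.sin _), ← sq_abs (Real.cos _)] at h3
    nlinarith [abs_nonneg (Real.sin (b n * x + ((2 * n + 1 : ℕ) : ℝ) * (Real.pi / 2))),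
      abs_nonneg (Real.cos (b n * x + ((2 * n + 1 : ℕ) : ℝ) * (Real.pi / 2)))]
  have h1 := low n k k1 k2 hcos
  have h2 := hC k
  have kf : (0 : ℝ) < k.factorial := by exact_mod_cast k.factorial_pos
  rw [Di, abs_div, abs_of_pos kf, div_le_iff₀ kf] at h2
  have h3 : (k.factorial : ℝ) ≤ (2 * n + 2).factorial := by exact_mod_cast Nat.factorial_le k2
  have n0 : (0 : ℝ) ≤ n := Nat.cast_nonneg n
  have hC0 : 0 ≤ C := by
    have := (abs_nonneg _).trans (hC 0)
    simpa using this
  have h4 : C * r ^ k < (n + 1) ^ (2 * n + 2) := by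
    have e1 : r ^ k ≤ ((n + 1) / 2) ^ k := pow_le_pow_left₀ hr.le (by linarith) k
    have e2 : C < 2 ^ k := by
      have : (k : ℝ) < 2 ^ k := by exact_mod_cast Nat.lt_two_pow_self
      have : ((2 * n + 1 : ℕ) : ℝ) ≤ k := by exact_mod_cast k1
      push_cast at this
      linarith
    calc C * r ^ k ≤ C * ((n + 1) / 2) ^ k := mul_le_mul_of_nonneg_left e1 hC0
      _ < 2 ^ k * ((n + 1) / 2) ^ k := mul_lt_mul_of_pos_right e2 (by positivity)
      _ = (n + 1) ^ k := by rw [← mul_pow]; congr 1; ring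
      _ ≤ (n + 1) ^ (2 * n + 2) := pow_le_pow_right₀ (by linarith) k2
  have h5 : C * r ^ k * k.factorial < (n + 1) ^ (2 * n + 2) * k.factorial :=
    mul_lt_mul_of_pos_right h4 kf
  have h6 : ((n : ℝ) + 1) ^ (2 * n + 2) * k.factorial ≤
      (n + 1) ^ (2 * n + 2) * (2 * n + 2).factorial :=
    mul_le_mul_of_nonneg_left h3 (by positivity)
  linarith

open MvPolynomial

lemma exbeta : ∃ be : ℕ → ℝ, Function.Injective fun m : ℕ →₀ ℕ => m.sum fun i e => (e : ℝ) * be i := by
  have ht : Transcendental ℤ (liouvilleNumber 2) := by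
    simpa using transcendental_liouvilleNumber (m := 2) le_rfl
  refine ⟨fun i => liouvilleNumber 2 ^ i, fun m m' h => ?_⟩
  have key : ∀ m : ℕ →₀ ℕ, Polynomial.aeval (liouvilleNumber 2)
      (m.sum fun i e => Polynomial.monomial i (e : ℤ)) =
      m.sum fun i e => (e : ℝ) * liouvilleNumber 2 ^ i := by
    intro m
    simp [Finsupp.sum, Polynomial.aeval_monomial]
  have co : ∀ (m : ℕ →₀ ℕ) (j : ℕ),
      (m.sum fun i e => Polynomial.monomial i (e : ℤ)).coeff j = m j := by
    intro m j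
    simp only [Finsupp.sum, Polynomial.finsetSum_coeff, Polynomial.coeff_monomial]
    rw [Finset.sum_ite_eq']
    split_ifs with hj
    · rfl
    · simp [Finsupp.notMem_support_iff.1 hj]
  have h2 := transcendental_iff_injective.1 ht ((key m).trans (h.trans (key m').symm))
  ext j
  have := (co m j).symm.trans ((congrArg (fun p => Polynomial.coeff p j) h2).trans (co m' j))
  exact_mod_cast this

variable {K : Type} [RCLike K]

def ch (t : ℝ) : Multiplicative ℝ →* K where
  toFun y := (Real.exp (t * y.toAdd) : ℝ)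
  map_one' := by simp
  map_mul' a b := by simp [mul_add, Real.exp_add]

lemma ch_inj : Function.Injective (ch : ℝ → (Multiplicative ℝ →* K)) := by
  intro s t h
  have h1 : ((Real.exp (s * 1) : ℝ) : K) = (Real.exp (t * 1) : ℝ) :=
    DFunLike.congr_fun h (Multiplicative.ofAdd 1)
  simpa using h1

lemma aeval_exp (be : ℕ → ℝ) (y : ℝ) (Q : MvPolynomial ℕ K) :
    aeval (fun i => ((Real.exp (be i * y) : ℝ) : K)) Q =
      ∑ m ∈ Q.support, Q.coeff m *
        ((Real.exp ((m.sum fun i e => (e : ℝ) * be i) * y) : ℝ) : K) := by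
  rw [aeval_def, eval₂_eq]
  refine Finset.sum_congr rfl fun m _ => ?_
  congr 1
  rw [Finsupp.sum, Finset.sum_mul, Real.exp_sum]
  push_cast
  refine Finset.prod_congr rfl fun i _ => ?_
  rw [mul_assoc, Real.exp_nat_mul]; push_cast; rfl

lemma eq_zero_of {be : ℕ → ℝ}
    (hbe : Function.Injective fun m : ℕ →₀ ℕ => m.sum fun i e => (e : ℝ) * be i)
    (Q : MvPolynomial ℕ K) (h : ∀ y, aeval (fun i => ((Real.exp (be i * y) : ℝ) : K)) Q = 0) :
    Q = 0 := by
  have li := (linearIndependent_monoidHom (Multiplicative ℝ) K).comp _ (ch_inj.comp hbe)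
  have := linearIndependent_iff'.1 li Q.support (fun m => Q.coeff m) (by
    funext y
    have := h y.toAdd
    rw [aeval_exp] at this
    simpa [ch, Finset.sum_apply] using this)
  ext m
  by_cases hm : m ∈ Q.support
  · simpa using this m hm
  · simpa using hm

lemma an_aeval (be : ℕ → ℝ) (Q : MvPolynomial ℕ K) (y : ℝ) :
    AnalyticAt ℝ (fun y => aeval (fun i => ((Real.exp (be i * y) : ℝ) : K)) Q) y := by
  simp only [aeval_exp]
  refine Finset.analyticAt_fun_sum _ fun m _ => analyticAt_const.mul ?_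
  exact AnalyticAt.comp (g := (RCLike.ofRealCLM : ℝ →L[ℝ] K))
    (f := fun y => Real.exp ((m.sum fun i e => (e : ℝ) * be i) * y))
    (ContinuousLinearMap.analyticAt _ _) (analyticAt_const.mul analyticAt_id).rexp'

lemma core {f : ℝ → ℝ} (hf : ContDiff ℝ (⊤ : ℕ∞) f) (hps : ∀ x, ¬ Bd f x) {g : ℝ → K}
    (hg : ∀ y, AnalyticAt ℝ g y) (hc : ¬ ∀ y, g y = g 0) (x : ℝ) :
    limsup (fun n : ℕ => ENNReal.ofReal
      ((‖iteratedDeriv n (fun y => g (f y)) x‖ / n.factorial) ^ (1 / (n : ℝ)))) atTop = ⊤ := by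
  by_contra hne
  have hs : SmAt f x := fun n => (hf.of_le (by exact_mod_cast le_top)).contDiffAt
  obtain ⟨L, hL, hLc⟩ : ∃ L : K →L[ℝ] ℝ, (∀ z, |L z| ≤ ‖z‖) ∧ ¬ ∀ y, L (g y) = L (g 0) := by
    by_contra H
    push Not at H
    exact hc fun y => RCLike.ext (H RCLike.reCLM RCLike.abs_re_le_norm y)
      (H RCLike.imCLM RCLike.abs_im_le_norm y)
  have hLg : ∀ y, AnalyticAt ℝ (fun y => L (g y)) y := fun y =>
    AnalyticAt.comp (g := L) (f := g) (L.analyticAt _) (hg y)
  have hgf : ∀ n : ℕ, ContDiffAt ℝ n (fun y => g (f y)) x := fun n =>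
    (hg _).contDiffAt.comp x (hs n)
  refine hps x (bd_of_conv hs (conv_comp hs hLg hLc (conv_of_bd
    (fun n => (hLg _).contDiffAt.comp x (hs n)) ?_)))
  obtain ⟨M, hM1, hM⟩ := ENNReal.lt_iff_exists_nnreal_btwn.1 (lt_top_iff_ne_top.2 hne)
  obtain ⟨N, hN⟩ := eventually_atTop.1 (eventually_lt_of_limsup_lt hM1)
  let d : ℕ → ℝ := fun n => ‖iteratedDeriv n (fun y => g (f y)) x‖ / n.factorial
  have d0 : ∀ n, 0 ≤ d n := fun n => by positivity
  have M0 : (0 : ℝ) ≤ M := M.2
  refine ⟨1 + ∑ n ∈ Finset.range (N + 1), d n, M + 1, by linarith, fun n => ?_⟩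
  have S0 : 0 ≤ ∑ n ∈ Finset.range (N + 1), d n := Finset.sum_nonneg fun n _ => d0 n
  have e1 : iteratedDeriv n (fun y => L (g (f y))) x =
      L (iteratedDeriv n (fun y => g (f y)) x) := by
    have := L.iteratedFDeriv_comp_left (hgf n) (i := n) le_rfl
    simp only [iteratedDeriv]
    exact (congrArg (fun p => p fun _ => 1) this).trans rfl
  have e2 : |iteratedDeriv n (fun y => L (g (f y))) x / n.factorial| ≤ d n := by
    rw [e1, abs_div, Nat.abs_cast]
    exact div_le_div_of_nonneg_right (hL _) (Nat.cast_nonneg _)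
  refine e2.trans ?_
  have p1 : (1 : ℝ) ≤ (M + 1) ^ n := one_le_pow₀ (by linarith)
  rcases lt_or_ge n (N + 1) with h | h
  · have := Finset.single_le_sum (f := d) (fun n _ => d0 n) (Finset.mem_range.2 h)
    nlinarith
  · have h1 := hN n (by omega)
    rw [ENNReal.ofReal_lt_coe_iff (Real.rpow_nonneg (d0 n) _)] at h1
    have h2 := pow_le_pow_left₀ (Real.rpow_nonneg (d0 n) _) (h1.le.trans (by linarith : (M : ℝ) ≤ M + 1)) n
    rw [one_div, Real.rpow_inv_natCast_pow (d0 n) (by omega)] at h2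
    nlinarith

lemma adj {A : Type} [CommRing A] [Algebra K A] (S : ℕ → A) (J : Set ℕ) {b : A}
    (hb : b ∈ NonUnitalAlgebra.adjoin K (S '' J)) :
    ∃ P : MvPolynomial ℕ K, constantCoeff P = 0 ∧ P ∈ supported K J ∧ aeval S P = b := by
  induction hb using NonUnitalAlgebra.adjoin_induction with
  | mem x hx =>
    obtain ⟨j, hj, rfl⟩ := hx
    exact ⟨X j, by simp, X_mem_supported.2 hj, by simp⟩
  | add x y _ _ h1 h2 =>
    obtain ⟨P, a1, a2, rfl⟩ := h1
    obtain ⟨Q, b1, b2, rfl⟩ := h2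
    exact ⟨P + Q, by simp [a1, b1], add_mem a2 b2, by simp⟩
  | zero => exact ⟨0, by simp, zero_mem _, by simp⟩
  | mul x y _ _ h1 h2 =>
    obtain ⟨P, a1, a2, rfl⟩ := h1
    obtain ⟨Q, b1, b2, rfl⟩ := h2
    exact ⟨P * Q, by simp [a1], mul_mem a2 b2, by simp⟩
  | smul r x _ h1 =>
    obtain ⟨P, a1, a2, rfl⟩ := h1
    exact ⟨r • P, by simp [a1], Subalgebra.smul_mem _ a2 r, by simp⟩

end

theorem result (K : Type) [RCLike K] :
    ∃ S : ℕ → C(unitInterval, K), Function.Injective S ∧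
      (∀ P : MvPolynomial ℕ K, P ≠ 0 → MvPolynomial.constantCoeff P = 0 →
        MvPolynomial.aeval S P ≠ 0) ∧
      (∀ T : Set C(unitInterval, K), T ⊂ Set.range S →
        NonUnitalAlgebra.adjoin K T ≠ NonUnitalAlgebra.adjoin K (Set.range S)) ∧
      ∀ b ∈ NonUnitalAlgebra.adjoin K (Set.range S), b ≠ 0 → PS b := by
  obtain ⟨f, hf, hps⟩ := exf
  obtain ⟨be, hbe⟩ := exbeta
  have fc := hf.continuous
  let S : ℕ → C(unitInterval, K) := fun i =>
    ⟨fun x => ((Real.exp (be i * f x) : ℝ) : K), RCLike.continuous_ofReal.comp (by fun_prop)⟩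
  have key : ∀ P : MvPolynomial ℕ K, P ≠ 0 → MvPolynomial.constantCoeff P = 0 →
      PS (MvPolynomial.aeval S P) := by
    intro P hP h0
    let g : ℝ → K := fun y => MvPolynomial.aeval (fun i => ((Real.exp (be i * y) : ℝ) : K)) P
    have hg : ∀ y, AnalyticAt ℝ g y := an_aeval be P
    have hc : ¬ ∀ y, g y = g 0 := by
      intro h
      have h1 := eq_zero_of hbe (P - MvPolynomial.C (g 0)) fun y => by
        rw [map_sub, MvPolynomial.aeval_C]; exact sub_eq_zero.2 (h y)
      have h2 := congrArg MvPolynomial.constantCoeff h1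
      simp only [map_sub, h0, MvPolynomial.constantCoeff_C, map_zero, zero_sub, neg_eq_zero] at h2
      rw [h2] at h1
      exact hP (by simpa using h1)
    have he : Set.EqOn (Set.IccExtend zero_le_one (MvPolynomial.aeval S P))
        (fun y => g (f y)) (Set.Icc 0 1) := by
      intro x hx
      rw [Set.IccExtend_of_mem _ _ hx]
      have := MvPolynomial.comp_aeval_apply S
        (ContinuousMap.evalAlgHom K K (⟨x, hx⟩ : unitInterval)) P
      exact this
    have hgf : ContDiff ℝ (⊤ : ℕ∞) (fun y => g (f y)) :=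
      ContDiff.comp (g := g) (contDiff_iff_contDiffAt.2 fun y => (hg y).contDiffAt) hf
    refine ⟨hgf.contDiffOn.congr he, fun x hx => ?_⟩
    rw [← core hf hps hg hc x]
    congr 1
    funext n
    rw [iteratedDerivWithin_congr he hx, iteratedDerivWithin_eq_iteratedDeriv
      (uniqueDiffOn_Icc one_pos) (hgf.of_le (by exact_mod_cast le_top)).contDiffAt hx]
  have ind : ∀ P : MvPolynomial ℕ K, P ≠ 0 → MvPolynomial.constantCoeff P = 0 →
      MvPolynomial.aeval S P ≠ 0 := by
    intro P hP h0 hz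
    have h1 := (key P hP h0).2 0 ⟨le_rfl, zero_le_one⟩
    rw [hz] at h1
    have h2 : Set.IccExtend zero_le_one (0 : C(unitInterval, K)) = fun _ => (0 : K) := rfl
    rw [h2] at h1
    have h3 : ∀ᶠ n : ℕ in Filter.atTop, ENNReal.ofReal
        ((‖iteratedDerivWithin n (fun _ : ℝ => (0 : K)) (Set.Icc 0 1) 0‖ / n.factorial) ^
          (1 / (n : ℝ))) = 0 := by
      filter_upwards [Filter.eventually_gt_atTop 0] with n hn
      simp [hn.ne']
    rw [Filter.limsup_congr h3] at h1
    simp at h1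
  refine ⟨S, fun i j h => ?_, ind, fun T hT hE => ?_, fun b hb h0 => ?_⟩
  · by_contra hne
    exact ind (MvPolynomial.X i - MvPolynomial.X j)
      (sub_ne_zero.2 fun h' => hne (MvPolynomial.X_injective h')) (by simp) (by simp [h])
  · obtain ⟨_, ⟨i, rfl⟩, hi⟩ := Set.exists_of_ssubset hT
    have h1 : S i ∈ NonUnitalAlgebra.adjoin K (S '' (S ⁻¹' T)) := by
      rw [Set.image_preimage_eq_of_subset hT.subset, hE]
      exact NonUnitalAlgebra.subset_adjoin K (Set.mem_range_self i)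
    obtain ⟨P, a1, a2, a3⟩ := adj S _ h1
    refine ind (MvPolynomial.X i - P) (sub_ne_zero.2 fun h' => hi ?_) (by simp [a1]) (by simp [a3])
    rw [← h'] at a2
    exact (MvPolynomial.X_mem_supported (i := i) (s := S ⁻¹' T)).1 a2
  · rw [← Set.image_univ] at hb
    obtain ⟨P, a1, -, rfl⟩ := adj S _ hb
    exact key P (by rintro rfl; simp at h0) a1

end Pool.Agent.Results.MP_30394b_an.StrongAlg
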